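import Pool.Agent.W567.IV.Stm2
import Pool.Agent.H450R2.Sp.Null

/-!
Null sets of lines with base points on a hyperplane.
-/

set_option autoImplicit false

open MeasureTheory MvPolynomial

namespace Pool.Agent.W636.IV

/-- the Euclidean space -/
abbrev E (n : ℕ) := EuclideanSpace ℝ (Fin n)

/-- the coordinates -/
abbrev J {n : ℕ} (k j : Fin n) : Type := {i : Fin n // i ≠ k} ⊕ {i : Fin n // i ≠ j}

variable {n : ℕ} (ν : Fin n → ℝ) (h : ℝ) (k j : Fin n) (ε : ℝ)

/-- linear part of the base point -/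
noncomputable def LX : (J k j → ℝ) →ₗ[ℝ] (Fin n → ℝ) :=
  LinearMap.pi fun i => if hi : i ≠ k then LinearMap.proj (Sum.inl ⟨i, hi⟩)
    else -(ν k)⁻¹ • ∑ i' : {i : Fin n // i ≠ k}, ν i' • LinearMap.proj (Sum.inl i')

/-- the base point -/
noncomputable def X (s : J k j → ℝ) : Fin n → ℝ := LX ν k j s + Pi.single k (h / ν k)

/-- linear part of the direction -/
noncomputable def LW : (J k j → ℝ) →ₗ[ℝ] (Fin n → ℝ) :=
  LinearMap.pi fun i => if hi : i ≠ j then LinearMap.proj (Sum.inr ⟨i, hi⟩) else 0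

/-- the direction -/
noncomputable def W (s : J k j → ℝ) : Fin n → ℝ := LW k j s + Pi.single j ε

lemma X_ne (s : J k j → ℝ) (i : Fin n) (hi : i ≠ k) : X ν h k j s i = s (Sum.inl ⟨i, hi⟩) := by
  simp [X, LX, hi]

lemma X_eq (s : J k j → ℝ) : X ν h k j s k =
    (h - ∑ i' : {i : Fin n // i ≠ k}, ν i' * s (Sum.inl i')) / ν k := by
  simp [X, LX]
  ring

lemma W_ne (s : J k j → ℝ) (i : Fin n) (hi : i ≠ j) : W k j ε s i = s (Sum.inr ⟨i, hi⟩) := by
  simp [W, LW, hi]

lemma W_eq (s : J k j → ℝ) : W k j ε s j = ε := by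
  simp [W, LW]

/-- a set of vectors -/
noncomputable def toE : (Fin n → ℝ) →ₗ[ℝ] E n := (WithLp.linearEquiv 2 ℝ (Fin n → ℝ)).symm.toLinearMap

lemma toE_apply (v : Fin n → ℝ) (i : Fin n) : toE v i = v i := rfl

lemma lip_aff {ι : Type} [Fintype ι] (L : (ι → ℝ) →ₗ[ℝ] (Fin n → ℝ)) (c : Fin n → ℝ) :
    ∃ K, LipschitzWith K fun s : ι → ℝ => toE (L s + c) := by
  have h1 := (LinearMap.toContinuousLinearMap (toE.comp L)).lipschitz
  have h2 := h1.add (LipschitzWith.const (toE c))
  have e : (fun s : ι → ℝ => toE (L s + c)) =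
      fun s => LinearMap.toContinuousLinearMap (toE.comp L) s + toE c := by
    funext s
    rw [map_add]
    rfl
  rw [e]
  exact ⟨_, h2⟩

lemma norm_lip {F : Type} [NormedAddCommGroup F] [NormedSpace ℝ F] :
    LipschitzOnWith 2 (fun w : F => ‖w‖⁻¹ • w) {w | 1 ≤ ‖w‖} := by
  refine LipschitzOnWith.of_dist_le_mul fun w hw w' hw' => ?_
  change 1 ≤ ‖w‖ at hw
  change 1 ≤ ‖w'‖ at hw'
  rw [dist_eq_norm, dist_eq_norm]
  have h1 : ‖w‖⁻¹ • w - ‖w'‖⁻¹ • w' = ‖w‖⁻¹ • (w - w') + (‖w‖⁻¹ - ‖w'‖⁻¹) • w' := by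
    rw [smul_sub, sub_smul]
    abel
  rw [h1]
  refine (norm_add_le _ _).trans ?_
  rw [norm_smul, norm_smul, norm_inv, norm_norm, Real.norm_eq_abs]
  have hw0 : 0 < ‖w‖ := by linarith
  have hw0' : 0 < ‖w'‖ := by linarith
  have h2 : |‖w‖⁻¹ - ‖w'‖⁻¹| * ‖w'‖ = ‖w‖⁻¹ * |‖w'‖ - ‖w‖| := by
    rw [inv_sub_inv hw0.ne' hw0'.ne', abs_div, abs_of_pos (mul_pos hw0 hw0')]
    field_simp
  have h3 : |‖w'‖ - ‖w‖| ≤ ‖w - w'‖ := by
    rw [abs_sub_comm]
    exact abs_norm_sub_norm_le w w'
  have h4 : ‖w‖⁻¹ ≤ 1 := inv_le_one_of_one_le₀ hw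
  rw [h2]
  have h5 : 0 ≤ ‖w - w'‖ := norm_nonneg _
  have h6 : 0 ≤ ‖w‖⁻¹ := by positivity
  push_cast
  nlinarith [mul_le_mul_of_nonneg_left h3 h6, mul_le_mul_of_nonneg_right h4 h5]

/-- the chart -/
noncomputable def ph (s : J k j → ℝ) : E n × E n :=
  (toE (X ν h k j s), ‖toE (W k j ε s)‖⁻¹ • toE (W k j ε s))

lemma ph_lip (hε : |ε| = 1) : ∃ K, LipschitzWith K (ph ν h k j ε) := by
  obtain ⟨K1, hK1⟩ := lip_aff (LX ν k j) (Pi.single k (h / ν k))
  obtain ⟨K2, hK2⟩ := lip_aff (LW k j) (Pi.single j ε)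
  have h3 : LipschitzWith (2 * K2) fun s => ‖toE (W k j ε s)‖⁻¹ • toE (W k j ε s) := by
    have h4 := norm_lip (F := E n).comp (hK2.lipschitzOnWith (s := Set.univ)) (fun s _ => by
      change 1 ≤ ‖toE (W k j ε s)‖
      have h5 := PiLp.norm_apply_le (toE (W k j ε s)) j
      rw [toE_apply, W_eq, Real.norm_eq_abs, hε] at h5
      exact h5)
    exact lipschitzOnWith_univ.1 h4
  exact ⟨_, hK1.prodMk h3⟩

/-- the polynomials of the base point -/
noncomputable def PX (i : Fin n) : MvPolynomial (J k j) ℂ :=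
  if hi : i ≠ k then MvPolynomial.X (Sum.inl ⟨i, hi⟩)
    else C ((ν k : ℂ)⁻¹) * (C (h : ℂ) -
      ∑ i' : {i : Fin n // i ≠ k}, C (ν i' : ℂ) * MvPolynomial.X (Sum.inl i'))

/-- the polynomials of the direction -/
noncomputable def PW (i : Fin n) : MvPolynomial (J k j) ℂ :=
  if hi : i ≠ j then MvPolynomial.X (Sum.inr ⟨i, hi⟩) else C (ε : ℂ)

lemma eval_PX (s : J k j → ℝ) (i : Fin n) :
    eval (fun a => (s a : ℂ)) (PX ν h k j i) = (X ν h k j s i : ℂ) := by
  unfold PX
  by_cases hi : i ≠ k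
  · rw [X_ne ν h k j s i hi, dif_pos hi, eval_X]
  · rw [dif_neg hi]
    push Not at hi
    subst hi
    rw [X_eq]
    simp [map_sum]
    ring

lemma eval_PW (s : J k j → ℝ) (i : Fin n) :
    eval (fun a => (s a : ℂ)) (PW k j ε i) = (W k j ε s i : ℂ) := by
  unfold PW
  by_cases hi : i ≠ j
  · rw [W_ne k j ε s i hi, dif_pos hi, eval_X]
  · rw [dif_neg hi]
    push Not at hi
    subst hi
    rw [W_eq, eval_C]

/-- the polynomial on the chart -/
noncomputable def R (t c : ℝ) (P : MvPolynomial (Fin n ⊕ Fin n) ℂ) : MvPolynomial (J k j) ℂ :=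
  bind₁ (Sum.elim (fun i => PX ν h k j i + C (t : ℂ) * PW k j ε i)
    (fun i => C (c : ℂ) * PW k j ε i)) P

lemma eval_R (t c : ℝ) (P : MvPolynomial (Fin n ⊕ Fin n) ℂ) (s : J k j → ℝ) :
    eval (fun a => (s a : ℂ)) (R ν h k j ε t c P) =
      eval (Sum.elim (fun i => ((X ν h k j s i + t * W k j ε s i : ℝ) : ℂ))
        (fun i => ((c * W k j ε s i : ℝ) : ℂ))) P := by
  unfold R
  have h1 : eval (fun a => (s a : ℂ)) (bind₁ (Sum.elim (fun i => PX ν h k j i +
      C (t : ℂ) * PW k j ε i) (fun i => C (c : ℂ) * PW k j ε i)) P) =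
      eval (fun b => eval (fun a => (s a : ℂ)) (Sum.elim (fun i => PX ν h k j i +
      C (t : ℂ) * PW k j ε i) (fun i => C (c : ℂ) * PW k j ε i) b)) P := by
    induction P using MvPolynomial.induction_on with
    | C a => simp
    | add p q hp hq => simp only [map_add, hp, hq]
    | mul_X p i hp => simp only [map_mul, hp, bind₁_X_right, eval_X]
  rw [h1]
  congr 2
  funext b
  rcases b with i | i
  · simp only [Sum.elim_inl, map_add, map_mul, eval_C, eval_PX, eval_PW]
    push_cast
    rfl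
  · simp only [Sum.elim_inr, map_mul, eval_C, eval_PW]
    push_cast
    rfl

lemma sum_ne (f : Fin n → ℝ) : ∑ i' : {i : Fin n // i ≠ k}, f i' = (∑ i, f i) - f k := by
  rw [eq_sub_iff_add_eq, add_comm]
  have h1 := Fintype.sum_subtype_add_sum_subtype (fun i : Fin n => i = k) f
  rw [← h1]
  congr 1
  simp
  rfl

/-- a point at which the polynomial on the chart does not vanish -/
lemma exists_R (hk : ν k ≠ 0) (hε : ε = 1 ∨ ε = -1) (P : MvPolynomial (Fin n ⊕ Fin n) ℂ)
    (hP : P ≠ 0) : ∃ t c : ℝ, 0 < c ∧ R ν h k j ε t c P ≠ 0 := by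
  classical
  have hε2 : ε * ε = 1 := by rcases hε with rfl | rfl <;> norm_num
  let Lf : MvPolynomial (Fin n ⊕ Fin n) ℂ := ∑ i, C (ν i : ℂ) * MvPolynomial.X (Sum.inr i)
  have hL : Lf ≠ 0 := by
    intro h0
    have h1 := congrArg (eval (Pi.single (Sum.inr k) (1 : ℂ))) h0
    simp only [Lf, map_sum, map_mul, eval_C, eval_X, map_zero] at h1
    rw [Finset.sum_eq_single k] at h1
    · simp at h1
      exact hk h1
    · intro i _ hi
      have : (Sum.inr i : Fin n ⊕ Fin n) ≠ Sum.inr k := fun h => hi (Sum.inr_injective h)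
      simp [this]
    · simp
  let S : Fin n ⊕ Fin n → Set ℂ := fun σ =>
    (fun r : ℝ => (r : ℂ)) '' (if σ = Sum.inr j then {r | 0 < ε * r} else Set.univ)
  have hS : ∀ σ, (S σ).Infinite := by
    intro σ
    refine Set.Infinite.image (Complex.ofReal_injective.injOn) ?_
    split_ifs with hσ
    · rcases hε with rfl | rfl
      · have : {r : ℝ | 0 < 1 * r} = Set.Ioi 0 := by ext r; simp
        rw [this]
        exact Set.Ioi_infinite 0
      · have : {r : ℝ | 0 < -1 * r} = Set.Iio 0 := by ext r; simp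
        rw [this]
        exact Set.Iio_infinite 0
    · exact Set.infinite_univ
  obtain ⟨x, hx, hxe⟩ : ∃ x ∈ Set.pi Set.univ S, eval x (P * Lf) ≠ 0 := by
    by_contra hcon
    push Not at hcon
    have := MvPolynomial.funext_set S hS (p := P * Lf) (q := 0) (fun x hx => by
      rw [hcon x hx, map_zero])
    exact mul_ne_zero hP hL this
  rw [map_mul] at hxe
  have hPx := left_ne_zero_of_mul hxe
  have hLx := right_ne_zero_of_mul hxe
  choose r hr hrx using fun σ => hx σ (Set.mem_univ σ)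
  have hrj : 0 < ε * r (Sum.inr j) := by
    have := hr (Sum.inr j)
    simpa using this
  let y : Fin n → ℝ := fun i => r (Sum.inl i)
  let z : Fin n → ℝ := fun i => r (Sum.inr i)
  let c : ℝ := ε * z j
  have hc : 0 < c := hrj
  let w : Fin n → ℝ := fun i => z i / c
  have hνz : ∑ i, ν i * z i ≠ 0 := by
    intro h0
    apply hLx
    simp only [Lf, map_sum, map_mul, eval_C, eval_X]
    have : ∀ i, x (Sum.inr i) = ((z i : ℝ) : ℂ) := fun i => (hrx (Sum.inr i)).symm
    simp only [this]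
    exact_mod_cast h0
  have hνw : ∑ i, ν i * w i ≠ 0 := by
    have : ∑ i, ν i * w i = (∑ i, ν i * z i) / c := by
      rw [Finset.sum_div]
      exact Finset.sum_congr rfl fun i _ => by simp only [w]; ring
    rw [this]
    exact div_ne_zero hνz hc.ne'
  let t : ℝ := ((∑ i, ν i * y i) - h) / ∑ i, ν i * w i
  have hbase : ∑ i, ν i * (y i - t * w i) = h := by
    have h1 : ∑ i, ν i * (y i - t * w i) = (∑ i, ν i * y i) - t * ∑ i, ν i * w i := by
      rw [Finset.mul_sum, ← Finset.sum_sub_distrib]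
      exact Finset.sum_congr rfl fun i _ => by ring
    rw [h1]
    simp only [t]
    rw [div_mul_cancel₀ _ hνw]
    ring
  refine ⟨t, c, hc, fun h0 => ?_⟩
  let s : J k j → ℝ := Sum.elim (fun i => y i - t * w i) (fun i => w i)
  have hXs : ∀ i, X ν h k j s i = y i - t * w i := by
    intro i
    by_cases hi : i ≠ k
    · rw [X_ne ν h k j s i hi]
      rfl
    · push Not at hi
      subst hi
      rw [X_eq]
      have h2 := sum_ne i (fun i => ν i * (y i - t * w i))
      rw [hbase] at h2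
      change (h - ∑ i' : {i' : Fin n // i' ≠ i}, ν i' * (y i' - t * w i')) / ν i = _
      rw [h2]
      field_simp
      ring
  have hWs : ∀ i, W k j ε s i = w i := by
    intro i
    by_cases hi : i ≠ j
    · rw [W_ne k j ε s i hi]
      rfl
    · push Not at hi
      subst hi
      rw [W_eq]
      simp only [w, c]
      have hz : z i ≠ 0 := by
        intro h0
        simp only [c, h0, mul_zero, lt_self_iff_false] at hc
      rw [eq_div_iff (by exact hc.ne'), ← mul_assoc, hε2, one_mul]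
  have h3 := congrArg (eval (fun a => (s a : ℂ))) h0
  rw [eval_R, map_zero] at h3
  apply hPx
  rw [← h3]
  congr 2
  funext σ
  rcases σ with i | i
  · rw [Sum.elim_inl, hXs, hWs, ← hrx]
    congr 1
    simp only [y]
    ring
  · rw [Sum.elim_inr, hWs, ← hrx]
    congr 1
    simp only [w, z]
    field_simp

theorem meas2 : Pool.Agent.W567.IV.S_meas2 := by
  classical
  intro n hn ν h hν P hP Z hZ
  obtain ⟨k, hk⟩ : ∃ k, ν k ≠ 0 := by
    by_contra hcon
    push Not at hcon
    have : ν = 0 := by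
      ext i
      exact hcon i
    rw [this, norm_zero] at hν
    exact zero_ne_one hν
  have hcard : ∀ j : Fin n, Fintype.card (J k j) = 2 * n - 2 := by
    intro j
    rw [Fintype.card_sum]
    have h1 : ∀ a : Fin n, Fintype.card {i : Fin n // i ≠ a} = n - 1 := by
      intro a
      simp
    rw [h1, h1]
    omega
  have key : ∀ (j : Fin n) (ε : ℝ), (ε = 1 ∨ ε = -1) →
      Measure.hausdorffMeasure ((2 * n - 2 : ℕ) : ℝ) {q ∈ Z | 0 < ε * q.2 j} = 0 := by
    intro j ε hε
    have hε1 : |ε| = 1 := by rcases hε with rfl | rfl <;> simp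
    have hε2 : ε * ε = 1 := by rcases hε with rfl | rfl <;> norm_num
    obtain ⟨t, c, hc, hR⟩ := exists_R (fun i => ν i) h k j ε hk hε P hP
    obtain ⟨K, hK⟩ := ph_lip (fun i => ν i) h k j ε hε1
    have hnull := H450Sp.poly_null _ hR
    have hsub : {q ∈ Z | 0 < ε * q.2 j} ⊆ ph (fun i => ν i) h k j ε ''
        {s | eval (fun a => (s a : ℂ)) (R (fun i => ν i) h k j ε t c P) = 0} := by
      rintro ⟨x, v⟩ ⟨hq, hpos⟩
      obtain ⟨hin, hv1, _, hPq⟩ := hZ _ hq
      simp only at hpos hin hv1 hPq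
      set a : ℝ := (ε * v j)⁻¹ with ha
      have ha0 : 0 < a := inv_pos.2 hpos
      let s : J k j → ℝ := Sum.elim (fun i => x i) (fun i => a * v i)
      have hin' : ∑ i, ν i * x i = h := by
        rw [← hin, PiLp.inner_apply]
        refine Finset.sum_congr rfl fun i _ => ?_
        simp [mul_comm]
      have hXs : ∀ i, X (fun i => ν i) h k j s i = x i := by
        intro i
        by_cases hi : i ≠ k
        · rw [X_ne _ h k j s i hi]
          rfl
        · push Not at hi
          subst hi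
          rw [X_eq]
          have h2 := sum_ne i (fun i => ν i * x i)
          rw [hin'] at h2
          change (h - ∑ i' : {i' : Fin n // i' ≠ i}, ν i' * x i') / ν i = _
          rw [h2]
          field_simp
          ring
      have hWs : ∀ i, W k j ε s i = a * v i := by
        intro i
        by_cases hi : i ≠ j
        · rw [W_ne k j ε s i hi]
          rfl
        · push Not at hi
          subst hi
          rw [W_eq, ha, inv_mul_eq_div, eq_div_iff hpos.ne', ← mul_assoc, hε2, one_mul]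
      refine ⟨s, ?_, ?_⟩
      · change eval (fun a => (s a : ℂ)) (R (fun i => ν i) h k j ε t c P) = 0
        rw [eval_R, ← hPq (t * a) (c * a) (by positivity)]
        congr 2
        funext σ
        rcases σ with i | i
        · simp only [Sum.elim_inl, hXs, hWs]
          congr 1
          ring
        · simp only [Sum.elim_inr, hWs]
          congr 1
          ring
      · have e1 : toE (X (fun i => ν i) h k j s) = x := by
          ext i
          rw [toE_apply, hXs]
        have e2 : toE (W k j ε s) = a • v := by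
          ext i
          rw [toE_apply, hWs]
          rfl
        change (toE (X (fun i => ν i) h k j s), ‖toE (W k j ε s)‖⁻¹ • toE (W k j ε s)) = (x, v)
        rw [e1, e2, norm_smul, hv1, mul_one, Real.norm_eq_abs, abs_of_pos ha0, smul_smul,
          inv_mul_cancel₀ ha0.ne', one_smul]
    refine measure_mono_null hsub ?_
    have h1 := hK.hausdorffMeasure_image_le (d := ((2 * n - 2 : ℕ) : ℝ)) (by positivity)
      {s | eval (fun a => (s a : ℂ)) (R (fun i => ν i) h k j ε t c P) = 0}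
    have h2 : (Measure.hausdorffMeasure ((2 * n - 2 : ℕ) : ℝ) : Measure (J k j → ℝ)) = volume := by
      rw [← hcard j]
      exact hausdorffMeasure_pi_real
    rw [h2, hnull, mul_zero] at h1
    exact le_antisymm h1 zero_le
  have hcov : Z ⊆ ⋃ j : Fin n, ({q ∈ Z | 0 < 1 * q.2 j} ∪ {q ∈ Z | 0 < -1 * q.2 j}) := by
    intro q hq
    obtain ⟨_, hv1, _, _⟩ := hZ _ hq
    obtain ⟨j, hj⟩ : ∃ j, q.2 j ≠ 0 := by
      by_contra hcon
      push Not at hcon
      have : q.2 = 0 := by
        ext i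
        exact hcon i
      rw [this, norm_zero] at hv1
      exact zero_ne_one hv1
    refine Set.mem_iUnion.2 ⟨j, ?_⟩
    rcases lt_or_gt_of_ne hj with h1 | h1
    · right
      exact ⟨hq, by linarith⟩
    · left
      exact ⟨hq, by linarith⟩
  refine measure_mono_null hcov ?_
  refine measure_iUnion_null fun j => ?_
  exact measure_union_null (key j 1 (Or.inl rfl)) (key j (-1) (Or.inr rfl))

end Pool.Agent.W636.IV
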